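import Mathlib
import Pool.Agent.Run7.h951.BG.Stm

open Polynomial Pool.Agent.Run7.h951.BG

namespace Run7.h849.BG

theorem t_LAG : S_ROOT → S_LAG := by
  intro hroot j ζ hζ
  obtain ⟨hmem, -, -, hnorm, -, -⟩ := hroot
  have hN : (0 : ℕ) < 2 ^ j := by positivity
  have hζN : ζ ^ (2 ^ j) = 1 := (hmem j ζ).1 hζ
  have hζ1 : ‖ζ‖ = 1 := hnorm j ζ hζ
  have hζ0 : ζ ≠ 0 := by
    intro h
    rw [h] at hζ1
    simp at hζ1
  have hNC : ((2 ^ j : ℕ) : ℂ) ≠ 0 := by exact_mod_cast hN.ne'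
  have hev : ∀ z : ℂ, (C (((2 ^ j : ℕ) : ℂ)⁻¹) * ∑ i ∈ Finset.range (2 ^ j), (C (ζ⁻¹) * X) ^ i).eval z
      = (((2 ^ j : ℕ) : ℂ)⁻¹) * ∑ i ∈ Finset.range (2 ^ j), (ζ⁻¹ * z) ^ i := by
    intro z
    rw [eval_mul, eval_C, eval_finsetSum]
    simp [eval_pow, eval_mul]
  refine ⟨C (((2 ^ j : ℕ) : ℂ)⁻¹) * ∑ i ∈ Finset.range (2 ^ j), (C (ζ⁻¹) * X) ^ i, ?_, ?_, ?_, ?_⟩
  · have h1 : (C (((2 ^ j : ℕ) : ℂ)⁻¹) * ∑ i ∈ Finset.range (2 ^ j), (C (ζ⁻¹) * X) ^ i).natDegree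
        ≤ 2 ^ j - 1 := by
      refine (natDegree_C_mul_le _ _).trans ?_
      refine natDegree_sum_le_of_forall_le _ _ ?_
      intro i hi
      refine (natDegree_pow_le).trans ?_
      have h2 : (C (ζ⁻¹) * X : ℂ[X]).natDegree ≤ 1 := by
        refine (natDegree_C_mul_le _ _).trans ?_
        exact natDegree_X_le
      have h3 : i < 2 ^ j := Finset.mem_range.1 hi
      calc i * (C (ζ⁻¹) * X : ℂ[X]).natDegree ≤ i * 1 := Nat.mul_le_mul_left _ h2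
        _ ≤ 2 ^ j - 1 := by omega
    omega
  · rw [hev, inv_mul_cancel₀ hζ0]
    simp only [one_pow, Finset.sum_const, Finset.card_range, nsmul_eq_mul, mul_one]
    exact inv_mul_cancel₀ hNC
  · intro ξ hξ hne
    rw [hev]
    have hξN : ξ ^ (2 ^ j) = 1 := (hmem j ξ).1 hξ
    have hx : ζ⁻¹ * ξ ≠ 1 := by
      intro h
      apply hne
      have := congrArg (fun t => ζ * t) h
      simpa [mul_inv_cancel_left₀ hζ0] using this
    have hxN : (ζ⁻¹ * ξ) ^ (2 ^ j) = 1 := by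
      rw [mul_pow, inv_pow, hζN, hξN]
      simp
    rw [geom_sum_eq hx, hxN]
    simp
  · intro z hz
    rw [hev, norm_mul]
    have h1 : ‖∑ i ∈ Finset.range (2 ^ j), (ζ⁻¹ * z) ^ i‖ ≤ ((2 ^ j : ℕ) : ℝ) := by
      refine (norm_sum_le _ _).trans ?_
      have h2 : ∀ i ∈ Finset.range (2 ^ j), ‖(ζ⁻¹ * z) ^ i‖ = 1 := by
        intro i _
        rw [norm_pow, norm_mul, norm_inv, hζ1, hz]
        simp
      rw [Finset.sum_congr rfl h2]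
      simp
    have h3 : ‖(((2 ^ j : ℕ) : ℂ)⁻¹)‖ = (((2 ^ j : ℕ) : ℝ))⁻¹ := by
      rw [norm_inv, Complex.norm_natCast]
    rw [h3]
    have h4 : (0 : ℝ) < ((2 ^ j : ℕ) : ℝ) := by exact_mod_cast hN
    rw [inv_mul_le_iff₀ h4]
    linarith

end Run7.h849.BG
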