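import Mathlib
import Pool.Agent.Run7.h951.BG.Stm

open Polynomial Pool.Agent.Run7.h951.BG

namespace Run7.h849.BG

theorem t_IDEAL : S_ROOT → S_IDEAL := by
  intro hroot j k hjk
  obtain ⟨hmem, hcard, -, hnorm, hmul, -⟩ := hroot
  set N : ℕ := 2 ^ j with hNdef
  have hN : 0 < N := by positivity
  have hmonic : (X ^ N - 1 : ℂ[X]).Monic := monic_X_pow_sub_C (1 : ℂ) hN.ne' |> fun h => by simpa using h
  have hne : (X ^ N - 1 : ℂ[X]) ≠ 0 := hmonic.ne_zero
  have hdegN : (X ^ N - 1 : ℂ[X]).natDegree = N := by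
    have := natDegree_X_pow_sub_C (n := N) (r := (1 : ℂ))
    simpa using this
  -- the divisor
  have hdvd : ∀ p : ℂ[X], (∀ ζ ∈ Rt j, p.eval ζ = 0) → (X ^ N - 1 : ℂ[X]) ∣ p := by
    intro p hp
    have hprim : IsPrimitiveRoot (Complex.exp (2 * Real.pi * Complex.I / (N : ℂ))) N :=
      Complex.isPrimitiveRoot_exp N hN.ne'
    have hprod : (X ^ N - 1 : ℂ[X]) = ∏ ζ ∈ Polynomial.nthRootsFinset N (1 : ℂ), (X - C ζ) :=
      X_pow_sub_one_eq_prod hN hprim
    rw [hprod]
    refine Finset.prod_dvd_of_coprime ?_ ?_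
    · intro a _ b _ hab
      exact pairwise_coprime_X_sub_C (s := fun x : ℂ => x) Function.injective_id hab
    · intro a ha
      exact dvd_iff_isRoot.2 (hp a ha)
  let L : ℂ[X] →ₗ[ℂ] ℂ[X] := LinearMap.mulLeft ℂ (X ^ N - 1 : ℂ[X])
  have hL : Function.Injective L := by
    intro a b hab
    exact mul_left_cancel₀ hne hab
  have hmemE : ∀ p : ℂ[X], p ∈ Submodule.map L (degreeLT ℂ (k + 1 - N)) ↔
      p.natDegree ≤ k ∧ ∀ ζ ∈ Rt j, p.eval ζ = 0 := by
    intro p
    constructor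
    · rintro ⟨q, hq, rfl⟩
      have hq' : q.degree < ((k + 1 - N : ℕ) : WithBot ℕ) := mem_degreeLT.1 hq
      change ((X ^ N - 1 : ℂ[X]) * q).natDegree ≤ k ∧ ∀ ζ ∈ Rt j, ((X ^ N - 1 : ℂ[X]) * q).eval ζ = 0
      constructor
      · by_cases hq0 : q = 0
        · rw [hq0]; simp
        · rw [natDegree_mul hne hq0, hdegN]
          have : q.natDegree < k + 1 - N := (natDegree_lt_iff_degree_lt hq0).2 hq'
          omega
      · intro ζ hζ
        have h1 : ζ ^ N = 1 := (hmem j ζ).1 hζ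
        simp [h1]
    · rintro ⟨hdeg, hev⟩
      obtain ⟨q, rfl⟩ := hdvd p hev
      refine ⟨q, ?_, rfl⟩
      have hgoal : q.degree < ((k + 1 - N : ℕ) : WithBot ℕ) := by
        by_cases hq0 : q = 0
        · rw [hq0, degree_zero]
          exact WithBot.bot_lt_coe _
        · rw [natDegree_mul hne hq0, hdegN] at hdeg
          exact (natDegree_lt_iff_degree_lt hq0).1 (by omega)
      exact mem_degreeLT.2 hgoal
  have hfd : FiniteDimensional ℂ (degreeLT ℂ (k + 1 - N)) :=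
    LinearEquiv.finiteDimensional (degreeLTEquiv ℂ (k + 1 - N)).symm
  refine ⟨Submodule.map L (degreeLT ℂ (k + 1 - N)), ?_, ?_, hmemE, ?_⟩
  · exact LinearEquiv.finiteDimensional (Submodule.equivMapOfInjective L hL (degreeLT ℂ (k + 1 - N)))
  · rw [← (Submodule.equivMapOfInjective L hL (degreeLT ℂ (k + 1 - N))).finrank_eq,
      (degreeLTEquiv ℂ (k + 1 - N)).finrank_eq]
    simp
  · intro ω hω p hp
    rw [hmemE] at hp ⊢
    refine ⟨?_, ?_⟩
    · refine natDegree_comp_le.trans ?_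
      have h2 : (C ω * X : ℂ[X]).natDegree ≤ 1 := (natDegree_C_mul_le _ _).trans natDegree_X_le
      calc p.natDegree * (C ω * X : ℂ[X]).natDegree ≤ p.natDegree * 1 := Nat.mul_le_mul_left _ h2
        _ ≤ k := by omega
    · intro ζ hζ
      rw [eval_comp]
      have h3 : (C ω * X : ℂ[X]).eval ζ = ω * ζ := by simp
      rw [h3]
      exact hp.2 _ (hmul j ω hω ζ hζ)

end Run7.h849.BG
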